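import Mathlib

namespace Pool.Agent.H20LW

open Polynomial

/-- `a ^ k * g γ` is integral when `a * γ` is integral and `k` is at least the degree of `g`. -/
lemma isIntegral_pow_mul_aeval {K : Type*} [Field K] (a : ℤ) (γ : K)
    (ha : IsIntegral ℤ ((a : K) * γ)) (g : ℤ[X]) (k : ℕ) (hk : g.natDegree ≤ k) :
    IsIntegral ℤ ((a : K) ^ k * aeval γ g) := by
  rw [aeval_eq_sum_range, Finset.mul_sum]
  refine IsIntegral.sum _ fun j hj => ?_
  have hj' : j ≤ k := by
    have := Finset.mem_range.1 hj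
    omega
  have h1 : (a : K) ^ k = (a : K) ^ (k - j) * (a : K) ^ j := by
    rw [← pow_add]
    congr 1
    omega
  have h2 : (a : K) ^ k * (g.coeff j • γ ^ j)
      = (g.coeff j : K) * ((a : K) ^ (k - j) * ((a : K) * γ) ^ j) := by
    rw [zsmul_eq_mul, mul_pow, h1]
    ring
  rw [h2]
  refine IsIntegral.mul ?_ (IsIntegral.mul ?_ (ha.pow j))
  · exact isIntegral_algebraMap (R := ℤ) (A := K) (x := g.coeff j)
  · exact (isIntegral_algebraMap (R := ℤ) (A := K) (x := a)).pow _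

/-- a denominator and an integer polynomial with nonzero constant term for one nonzero number -/
lemma exists_one {K : Type*} [Field K] [CharZero K] (γ : K) (h0 : γ ≠ 0)
    (hγ : IsAlgebraic ℤ γ) :
    ∃ (a : ℤ) (f : ℤ[X]), a ≠ 0 ∧ IsIntegral ℤ ((a : K) * γ) ∧ f.eval 0 ≠ 0 ∧ aeval γ f = 0 := by
  obtain ⟨a, ha, hint⟩ := hγ.exists_integral_multiple
  have hint' : IsIntegral ℤ ((a : K) * γ) := by simpa [zsmul_eq_mul] using hint
  obtain ⟨f, hf0, hf⟩ := hγ.exists_nonzero_coeff_and_aeval_eq_zero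
    (mem_nonZeroDivisors_of_ne_zero h0)
  refine ⟨a, f, ha, hint', ?_, hf⟩
  rwa [coeff_zero_eq_eval_zero] at hf0

lemma exists_common {K : Type*} [Field K] [CharZero K] (s : Finset K) (h0 : ∀ γ ∈ s, γ ≠ 0)
    (hs : ∀ γ ∈ s, IsAlgebraic ℤ γ) :
    ∃ (a : ℤ) (f : ℤ[X]), a ≠ 0 ∧ f.eval 0 ≠ 0 ∧
      ∀ γ ∈ s, IsIntegral ℤ ((a : K) * γ) ∧ aeval γ f = 0 := by
  classical
  induction s using Finset.induction_on with
  | empty => exact ⟨1, 1, one_ne_zero, by simp, by simp⟩
  | insert x s hx ih =>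
    obtain ⟨a, f, ha, hf, H⟩ := ih (fun γ hγ => h0 γ (Finset.mem_insert_of_mem hγ))
      (fun γ hγ => hs γ (Finset.mem_insert_of_mem hγ))
    obtain ⟨b, g, hb, hbi, hg, hgx⟩ := exists_one x (h0 x (Finset.mem_insert_self x s))
      (hs x (Finset.mem_insert_self x s))
    refine ⟨a * b, f * g, mul_ne_zero ha hb, ?_, ?_⟩
    · rw [eval_mul]
      exact mul_ne_zero hf hg
    · intro γ hγ
      rcases Finset.mem_insert.1 hγ with h | h
      · subst h
        refine ⟨?_, by rw [map_mul, hgx, mul_zero]⟩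
        have : (((a * b : ℤ) : K)) * γ = (a : K) * ((b : K) * γ) := by push_cast; ring
        rw [this]
        exact (isIntegral_algebraMap (R := ℤ) (A := K) (x := a)).mul hbi
      · obtain ⟨h1, h2⟩ := H γ h
        refine ⟨?_, by rw [map_mul, h2, zero_mul]⟩
        have : (((a * b : ℤ) : K)) * γ = (b : K) * ((a : K) * γ) := by push_cast; ring
        rw [this]
        exact (isIntegral_algebraMap (R := ℤ) (A := K) (x := b)).mul h1

/-- an integral element fixed by the Galois group is an integer -/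
lemma int_of_fixed {K : Type*} [Field K] [CharZero K] [FiniteDimensional ℚ K] [IsGalois ℚ K]
    (x : K) (hx : IsIntegral ℤ x) (hfix : ∀ σ : K ≃ₐ[ℚ] K, σ x = x) : ∃ z : ℤ, (z : K) = x := by
  obtain ⟨q, hq⟩ := (IsGalois.mem_range_algebraMap_iff_fixed (F := ℚ) x).2 hfix
  have hqi : IsIntegral ℤ q := by
    rw [← hq] at hx
    exact (isIntegral_algebraMap_iff (algebraMap ℚ K).injective).1 hx
  obtain ⟨z, hz⟩ := IsIntegrallyClosed.isIntegral_iff.1 hqi
  refine ⟨z, ?_⟩
  rw [← hq, ← hz]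
  simp

end Pool.Agent.H20LW
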