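import Pool.Agent.H20LW.A

namespace Pool.Agent.H20LW

open Polynomial Filter
open scoped Nat

lemma aeval_map {K : Type*} [Field K] (ι : K →+* ℂ) (γ : K) (g : ℤ[X]) :
    ι (aeval γ g) = aeval (ι γ) g := by
  have := Polynomial.aeval_algHom_apply ι.toIntAlgHom γ g
  simpa using this.symm

/-- the integer obtained from the Galois invariant sum -/
lemma exists_int {K : Type*} [Field K] [CharZero K] [FiniteDimensional ℚ K] [IsGalois ℚ K]
    (s : Finset K) (w : K → ℤ)
    (hs : ∀ σ : K ≃ₐ[ℚ] K, ∀ γ, γ ∈ s → σ γ ∈ s) (hw : ∀ σ : K ≃ₐ[ℚ] K, ∀ γ, w (σ γ) = w γ)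
    (a : ℤ) (ha : ∀ γ ∈ s, IsIntegral ℤ ((a : K) * γ)) (g : ℤ[X]) (k : ℕ)
    (hk : g.natDegree ≤ k) :
    ∃ z : ℤ, (z : K) = ∑ γ ∈ s, (w γ : K) * ((a : K) ^ k * aeval γ g) := by
  apply int_of_fixed
  · refine IsIntegral.sum _ fun γ hγ => ?_
    exact (isIntegral_algebraMap (R := ℤ) (A := K) (x := w γ)).mul
      (isIntegral_pow_mul_aeval a γ (ha γ hγ) g k hk)
  · intro σ
    rw [map_sum]
    refine Finset.sum_nbij' (i := σ) (j := σ.symm) (fun γ hγ => hs σ γ hγ)
      (fun γ hγ => hs σ.symm γ hγ) (fun γ _ => by simp) (fun γ _ => by simp) ?_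
    intro γ _
    rw [hw σ γ, map_mul, map_mul, map_pow, map_intCast, map_intCast]
    congr 2
    have := Polynomial.aeval_algHom_apply (σ.toRingEquiv.toRingHom.toIntAlgHom) γ g
    simpa using this.symm

theorem symm_ne_zero {K : Type*} [Field K] [CharZero K] [FiniteDimensional ℚ K] [IsGalois ℚ K]
    (ι : K →+* ℂ) (s : Finset K) (w : K → ℤ) (h0s : (0 : K) ∉ s) (hw0 : w 0 ≠ 0)
    (hs : ∀ σ : K ≃ₐ[ℚ] K, ∀ γ, γ ∈ s → σ γ ∈ s) (hw : ∀ σ : K ≃ₐ[ℚ] K, ∀ γ, w (σ γ) = w γ) :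
    (w 0 : ℂ) + ∑ γ ∈ s, (w γ : ℂ) * Complex.exp (ι γ) ≠ 0 := by
  intro hzero
  have halg : ∀ γ : K, IsAlgebraic ℤ γ := fun γ =>
    (IsFractionRing.isAlgebraic_iff ℤ ℚ K).2 (Algebra.IsAlgebraic.isAlgebraic γ)
  obtain ⟨a, f, ha, hf0, H⟩ := exists_common s
    (fun γ hγ h => h0s (h ▸ hγ)) (fun γ _ => halg γ)
  have hfne : f ≠ 0 := by
    intro h
    rw [h] at hf0
    simp at hf0
  obtain ⟨c, hc⟩ := LindemannWeierstrass.exp_polynomial_approx f hf0
  set m := f.natDegree with hm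
  set C : ℝ := ∑ γ ∈ s, |(w γ : ℝ)| with hC
  set B : ℝ := |(a : ℝ)| ^ m * |c| with hB
  have key : ∀ p : ℕ, (eval 0 f).natAbs < p → a.natAbs < p → (w 0).natAbs < p → p.Prime →
      1 ≤ C * (B ^ p / (p - 1)!) := by
    intro p hp1 hp2 hp3 hprime
    obtain ⟨n, hn, gp, hdeg, hgp⟩ := hc p hp1 hprime
    obtain ⟨z, hz⟩ := exists_int s w hs hw a (fun γ hγ => (H γ hγ).1) gp (p * m)
      (hdeg.trans (Nat.sub_le _ _))
    have hzC : (z : ℂ) = ∑ γ ∈ s, (w γ : ℂ) * ((a : ℂ) ^ (p * m) * aeval (ι γ) gp) := by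
      have := congrArg ι hz
      rw [map_intCast, map_sum] at this
      rw [this]
      refine Finset.sum_congr rfl fun γ _ => ?_
      rw [map_mul, map_mul, map_pow, map_intCast, map_intCast, aeval_map]
    have hid : (((a ^ (p * m) * n * w 0 + p * z : ℤ)) : ℂ)
        = -∑ γ ∈ s, (w γ : ℂ) * ((a : ℂ) ^ (p * m) *
          (n • Complex.exp (ι γ) - p • aeval (ι γ) gp)) := by
      have h1 : (a : ℂ) ^ (p * m) * n * ((w 0 : ℂ) + ∑ γ ∈ s, (w γ : ℂ) * Complex.exp (ι γ))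
          = 0 := by rw [hzero, mul_zero]
      rw [mul_add, Finset.mul_sum] at h1
      have h2 : (((a ^ (p * m) * n * w 0 + p * z : ℤ)) : ℂ)
          = (a : ℂ) ^ (p * m) * n * w 0 + p * (z : ℂ) := by push_cast; ring
      rw [h2, eq_neg_of_add_eq_zero_left h1, hzC, Finset.mul_sum, ← Finset.sum_neg_distrib,
        ← Finset.sum_neg_distrib, ← Finset.sum_add_distrib]
      refine Finset.sum_congr rfl fun γ _ => ?_
      rw [zsmul_eq_mul, nsmul_eq_mul]
      ring
    have hne : (a ^ (p * m) * n * w 0 + p * z : ℤ) ≠ 0 := by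
      intro h
      have hdvd : (p : ℤ) ∣ a ^ (p * m) * n * w 0 := by
        refine ⟨-z, ?_⟩
        linarith
      have hpi : Prime (p : ℤ) := Nat.prime_iff_prime_int.1 hprime
      rcases hpi.dvd_or_dvd hdvd with h | h
      · rcases hpi.dvd_or_dvd h with h | h
        · have := hpi.dvd_of_dvd_pow h
          have h3 := Int.natAbs_dvd_natAbs.2 this
          rw [Int.natAbs_natCast] at h3
          have := Nat.le_of_dvd (Int.natAbs_pos.2 ha) h3
          omega
        · exact hn h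
      · have h3 := Int.natAbs_dvd_natAbs.2 h
        rw [Int.natAbs_natCast] at h3
        have := Nat.le_of_dvd (Int.natAbs_pos.2 hw0) h3
        omega
    have hge : (1 : ℝ) ≤ ‖(((a ^ (p * m) * n * w 0 + p * z : ℤ)) : ℂ)‖ := by
      rw [Complex.norm_intCast]
      exact_mod_cast Int.one_le_abs hne
    refine hge.trans ?_
    rw [hid, norm_neg]
    refine (norm_sum_le _ _).trans ?_
    rw [hC, Finset.sum_mul]
    refine Finset.sum_le_sum fun γ hγ => ?_
    rw [norm_mul, norm_mul, norm_pow, Complex.norm_intCast, Complex.norm_intCast]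
    refine mul_le_mul_of_nonneg_left ?_ (abs_nonneg _)
    have h4 : ‖n • Complex.exp (ι γ) - p • aeval (ι γ) gp‖ ≤ |c| ^ p / (p - 1)! := by
      refine (hgp (r := ι γ) ?_).trans ?_
      · rw [mem_aroots]
        refine ⟨hfne, ?_⟩
        rw [← aeval_map, (H γ hγ).2, map_zero]
      · refine div_le_div_of_nonneg_right ?_ (Nat.cast_nonneg _)
        rw [← abs_pow]
        exact le_abs_self _
    have h5 : B ^ p / (p - 1)! = |(a : ℝ)| ^ (p * m) * (|c| ^ p / (p - 1)!) := by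
      rw [hB, mul_pow, ← pow_mul, mul_comm m p, mul_div_assoc]
    rw [h5]
    exact mul_le_mul_of_nonneg_left h4 (by positivity)
  -- the bound tends to zero
  have hlim : Tendsto (fun q : ℕ => C * (B * (B ^ q / q !))) atTop (nhds (C * (B * 0))) :=
    ((FloorSemiring.tendsto_pow_div_factorial_atTop B).const_mul B).const_mul C
  rw [mul_zero, mul_zero] at hlim
  have hev := (hlim.eventually (gt_mem_nhds (show (0 : ℝ) < 1 from one_pos)))
  obtain ⟨N, hN⟩ := eventually_atTop.1 hev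
  obtain ⟨p, hpN, hprime⟩ := Nat.exists_infinite_primes
    (N + (eval 0 f).natAbs + a.natAbs + (w 0).natAbs + 2)
  have h1 := key p (by omega) (by omega) (by omega) hprime
  have h2 := hN (p - 1) (by omega)
  have h3 : B ^ p / (p - 1)! = B * (B ^ (p - 1) / (p - 1)!) := by
    rw [← mul_div_assoc, ← pow_succ']
    congr 2
    omega
  rw [h3] at h1
  linarith

end Pool.Agent.H20LW
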