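import Pool.Agent.H20LW.B

namespace Pool.Agent.H20LW

open Polynomial

noncomputable section

/-- `γ ↦ exp (ι γ)` as a monoid homomorphism. -/
def expHom {K : Type*} [Field K] (ι : K →+* ℂ) : Multiplicative K →* ℂ where
  toFun γ := Complex.exp (ι γ.toAdd)
  map_one' := by simp
  map_mul' x y := by simp [Complex.exp_add]

/-- evaluation of the group algebra by exponentials -/
def E {K : Type*} [Field K] (ι : K →+* ℂ) : AddMonoidAlgebra ℤ K →ₐ[ℤ] ℂ :=
  AddMonoidAlgebra.lift ℤ ℂ K (expHom ι)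

lemma E_apply {K : Type*} [Field K] (ι : K →+* ℂ) (x : AddMonoidAlgebra ℤ K) :
    E ι x = ∑ γ ∈ x.coeff.support, (x.coeff γ : ℂ) * Complex.exp (ι γ) := by
  rw [E, AddMonoidAlgebra.lift_apply, Finsupp.sum]
  refine Finset.sum_congr rfl fun γ _ => ?_
  rw [zsmul_eq_mul]
  rfl

/-- the Galois action on the group algebra -/
def φ {K : Type*} [Field K] [CharZero K] (σ : K ≃ₐ[ℚ] K) :
    AddMonoidAlgebra ℤ K →+* AddMonoidAlgebra ℤ K :=
  AddMonoidAlgebra.mapDomainRingHom ℤ (σ : K →+ K)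

lemma φ_coeff {K : Type*} [Field K] [CharZero K] (σ : K ≃ₐ[ℚ] K) (x : AddMonoidAlgebra ℤ K)
    (γ : K) : (φ σ x).coeff (σ γ) = x.coeff γ := by
  have h : (φ σ x).coeff = Finsupp.mapDomain (σ : K → K) x.coeff := rfl
  rw [h]
  exact Finsupp.mapDomain_apply σ.injective _ _

lemma φ_coeff' {K : Type*} [Field K] [CharZero K] (σ : K ≃ₐ[ℚ] K) (x : AddMonoidAlgebra ℤ K)
    (γ : K) : (φ σ x).coeff γ = x.coeff (σ.symm γ) := by
  have := φ_coeff σ x (σ.symm γ)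
  rwa [AlgEquiv.apply_symm_apply] at this

lemma φ_mul {K : Type*} [Field K] [CharZero K] (σ τ : K ≃ₐ[ℚ] K) (x : AddMonoidAlgebra ℤ K) :
    φ σ (φ τ x) = φ (σ * τ) x := by
  ext γ
  rw [φ_coeff', φ_coeff', φ_coeff']
  rfl

lemma φ_one {K : Type*} [Field K] [CharZero K] (x : AddMonoidAlgebra ℤ K) :
    φ (1 : K ≃ₐ[ℚ] K) x = x := by
  ext γ
  rw [φ_coeff']
  rfl

theorem E_ne_zero {K : Type*} [Field K] [CharZero K] [FiniteDimensional ℚ K] [IsGalois ℚ K]
    (ι : K →+* ℂ) (x : AddMonoidAlgebra ℤ K) (hx : x ≠ 0) : E ι x ≠ 0 := by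
  classical
  intro hE
  set N : AddMonoidAlgebra ℤ K := ∏ σ : K ≃ₐ[ℚ] K, φ σ x with hN
  have hN0 : N ≠ 0 := by
    rw [hN, Finset.prod_ne_zero_iff]
    intro σ _ h
    apply hx
    ext γ
    rw [← φ_coeff σ x γ, h]
    rfl
  have hEN : E ι N = 0 := by
    rw [hN, map_prod]
    refine Finset.prod_eq_zero (Finset.mem_univ (1 : K ≃ₐ[ℚ] K)) ?_
    rw [φ_one, hE]
  have hinv : ∀ τ : K ≃ₐ[ℚ] K, φ τ N = N := by
    intro τ
    rw [hN, map_prod]
    refine Fintype.prod_equiv (Equiv.mulLeft τ) _ _ fun σ => ?_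
    rw [φ_mul]
    rfl
  have hc : ∀ (τ : K ≃ₐ[ℚ] K) (γ : K), N.coeff (τ γ) = N.coeff γ := by
    intro τ γ
    have := φ_coeff τ N γ
    rwa [hinv τ] at this
  obtain ⟨γ₀, hγ₀⟩ : ∃ γ, N.coeff γ ≠ 0 := by
    by_contra h
    push Not at h
    apply hN0
    ext γ
    rw [h γ]
    rfl
  set M : AddMonoidAlgebra ℤ K := ∑ σ : K ≃ₐ[ℚ] K, AddMonoidAlgebra.single (-(σ γ₀)) (1 : ℤ)
    with hM
  set w : K → ℤ := fun δ => (N * M).coeff δ with hw
  have hwδ : ∀ δ, w δ = ∑ σ : K ≃ₐ[ℚ] K, N.coeff (δ + σ γ₀) := by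
    intro δ
    show (N * M).coeff δ = _
    rw [hM, Finset.mul_sum, AddMonoidAlgebra.coeff_sum, Finsupp.finsetSum_apply]
    refine Finset.sum_congr rfl fun σ _ => ?_
    rw [AddMonoidAlgebra.coeff_mul_single_apply]
    simp
  have hw0 : w 0 ≠ 0 := by
    rw [hwδ]
    have : ∀ σ ∈ (Finset.univ : Finset (K ≃ₐ[ℚ] K)), N.coeff (0 + σ γ₀) = N.coeff γ₀ := by
      intro σ _
      rw [zero_add, hc]
    rw [Finset.sum_congr rfl this, Finset.sum_const, nsmul_eq_mul]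
    refine mul_ne_zero ?_ hγ₀
    have : 0 < (Finset.univ : Finset (K ≃ₐ[ℚ] K)).card := Finset.card_pos.2 ⟨1, Finset.mem_univ _⟩
    exact_mod_cast this.ne'
  have hwinv : ∀ (τ : K ≃ₐ[ℚ] K) (γ : K), w (τ γ) = w γ := by
    intro τ γ
    rw [hwδ, hwδ]
    refine (Fintype.sum_equiv (Equiv.mulLeft τ) _ _ fun σ => ?_).symm
    have : τ γ + (Equiv.mulLeft τ σ) γ₀ = τ (γ + σ γ₀) := by
      rw [map_add]
      rfl
    rw [this, hc]
  have hmem : ∀ γ, γ ∈ (N * M).coeff.support ↔ w γ ≠ 0 := by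
    intro γ
    rw [Finsupp.mem_support_iff]
  apply symm_ne_zero ι ((N * M).coeff.support.erase 0) w (by simp) hw0 ?_ hwinv
  · have h1 : E ι (N * M) = 0 := by rw [map_mul, hEN, zero_mul]
    rw [E_apply] at h1
    have h0 : (0 : K) ∈ (N * M).coeff.support := (hmem 0).2 hw0
    rw [← Finset.add_sum_erase _ _ h0] at h1
    simpa using h1
  · intro σ γ hγ
    rw [Finset.mem_erase] at hγ ⊢
    refine ⟨fun h => hγ.1 ?_, ?_⟩
    · exact (map_eq_zero σ).1 h
    · rw [hmem, hwinv, ← hmem]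
      exact hγ.2

/-- **Lindemann–Weierstrass theorem** (integer coefficients). -/
theorem lindemann_weierstrass (t : Finset ℂ) (ht : ∀ α ∈ t, IsAlgebraic ℚ α) (c : ℂ → ℤ)
    (h : ∑ α ∈ t, (c α : ℂ) * Complex.exp α = 0) : ∀ α ∈ t, c α = 0 := by
  classical
  let P : ℚ[X] := ∏ α ∈ t, minpoly ℚ α
  have hP0 : P ≠ 0 := Finset.prod_ne_zero_iff.2 fun α hα => minpoly.ne_zero (ht α hα).isIntegral
  let K : IntermediateField ℚ ℂ := IntermediateField.adjoin ℚ (P.rootSet ℂ)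
  have hsplit : P.IsSplittingField ℚ K :=
    IntermediateField.adjoin_rootSet_isSplittingField (IsAlgClosed.splits _)
  have hfinK : FiniteDimensional ℚ K := IsSplittingField.finiteDimensional K P
  have hnorm : Normal ℚ K := Normal.of_isSplittingField P
  have hgal : IsGalois ℚ K := { }
  have hmem : ∀ α ∈ t, α ∈ K := by
    intro α hα
    refine IntermediateField.subset_adjoin ℚ _ ?_
    rw [mem_rootSet]
    refine ⟨hP0, ?_⟩
    show aeval α (∏ α ∈ t, minpoly ℚ α) = 0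
    rw [map_prod]
    exact Finset.prod_eq_zero hα (minpoly.aeval ℚ α)
  let ι : K →+* ℂ := algebraMap K ℂ
  let x : AddMonoidAlgebra ℤ K :=
    ∑ α ∈ t.attach, AddMonoidAlgebra.single (⟨α.1, hmem α.1 α.2⟩ : K) (c α.1)
  have hEx : E ι x = 0 := by
    show E ι (∑ α ∈ t.attach, AddMonoidAlgebra.single (⟨α.1, hmem α.1 α.2⟩ : K) (c α.1)) = 0
    rw [map_sum, ← h, ← Finset.sum_attach t (fun α => (c α : ℂ) * Complex.exp α)]
    refine Finset.sum_congr rfl fun α _ => ?_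
    rw [E, AddMonoidAlgebra.lift_single, zsmul_eq_mul]
    rfl
  have hx0 : x = 0 := by
    by_contra hne
    exact E_ne_zero ι x hne hEx
  intro α hα
  have h1 : x.coeff (⟨α, hmem α hα⟩ : K) = 0 := by rw [hx0]; rfl
  have h2 : x.coeff (⟨α, hmem α hα⟩ : K) = c α := by
    show (∑ β ∈ t.attach, AddMonoidAlgebra.single (⟨β.1, hmem β.1 β.2⟩ : K) (c β.1)).coeff _ = _
    rw [AddMonoidAlgebra.coeff_sum, Finsupp.finsetSum_apply]
    rw [Finset.sum_eq_single (⟨α, hα⟩ : {z // z ∈ t})]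
    · simp
    · intro β _ hβ
      rw [AddMonoidAlgebra.coeff_single, Finsupp.single_apply, if_neg]
      intro h
      apply hβ
      apply Subtype.ext
      exact congrArg (fun z : K => (z : ℂ)) h
    · intro h
      exact absurd (Finset.mem_attach t ⟨α, hα⟩) h
  rw [← h2, h1]

end

end Pool.Agent.H20LW
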