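import Pool.Agent.H20LW.C

namespace Pool.Agent.H20LW

open Polynomial

noncomputable section

/-- LW, linear independence over `ℤ` of the exponentials of the algebraic numbers -/
theorem linearIndependent_int :
    LinearIndependent ℤ (fun α : {α : ℂ // IsAlgebraic ℚ α} => Complex.exp α.1) := by
  classical
  rw [linearIndependent_iff']
  intro s g hg i hi
  let c : ℂ → ℤ := fun z => if h : IsAlgebraic ℚ z then g ⟨z, h⟩ else 0
  have hc : ∀ a : {α : ℂ // IsAlgebraic ℚ α}, c a.1 = g a := by
    intro a
    show (if h : IsAlgebraic ℚ a.1 then g ⟨a.1, h⟩ else 0) = g a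
    rw [dif_pos a.2]
  have h := lindemann_weierstrass (s.map ⟨Subtype.val, Subtype.val_injective⟩) (by
    intro α hα
    rw [Finset.mem_map] at hα
    obtain ⟨β, _, rfl⟩ := hα
    exact β.2) c (by
    rw [Finset.sum_map, ← hg]
    refine Finset.sum_congr rfl fun a _ => ?_
    show (c a.1 : ℂ) * Complex.exp a.1 = _
    rw [hc, zsmul_eq_mul]) i.1 (Finset.mem_map.2 ⟨i, hi, rfl⟩)
  rw [← hc i, h]

theorem linearIndependent_rat :
    LinearIndependent ℚ (fun α : {α : ℂ // IsAlgebraic ℚ α} => Complex.exp α.1) :=
  (LinearIndependent.iff_fractionRing ℤ ℚ).1 linearIndependent_int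

/-- LW, algebraic independence -/
theorem algebraicIndependent_exp {ι : Type*} (v : ι → ℂ) (hv : ∀ i, IsAlgebraic ℚ (v i))
    (hlin : LinearIndependent ℚ v) : AlgebraicIndependent ℚ (fun i => Complex.exp (v i)) := by
  classical
  have hnat : LinearIndependent ℕ v :=
    hlin.restrict_scalars (by
      intro m n hmn
      simpa using hmn)
  have hinj : Function.Injective (Finsupp.linearCombination ℕ v) := hnat
  have halg : ∀ d : ι →₀ ℕ, IsAlgebraic ℚ (Finsupp.linearCombination ℕ v d) := by
    intro d
    rw [Finsupp.linearCombination_apply, Finsupp.sum]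
    refine (IsIntegral.sum _ fun i _ => ?_).isAlgebraic
    rw [nsmul_eq_mul]
    exact ((isAlgebraic_natCast (d i)).mul (hv i)).isIntegral
  have hli : LinearIndependent ℚ
      (fun d : ι →₀ ℕ => Complex.exp (Finsupp.linearCombination ℕ v d)) :=
    linearIndependent_rat.comp
      (fun d : ι →₀ ℕ => (⟨Finsupp.linearCombination ℕ v d, halg d⟩ : {α : ℂ // IsAlgebraic ℚ α}))
      (by
        intro d d' h
        exact hinj (congrArg Subtype.val h))
  rw [algebraicIndependent_iff]
  intro p hp
  rw [MvPolynomial.aeval_def, MvPolynomial.eval₂_eq] at hp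
  have hz : ∑ d ∈ p.support, p.coeff d • Complex.exp (Finsupp.linearCombination ℕ v d) = 0 := by
    rw [← hp]
    refine Finset.sum_congr rfl fun d _ => ?_
    rw [Algebra.smul_def, Finsupp.linearCombination_apply, Finsupp.sum, Complex.exp_sum]
    congr 1
    refine Finset.prod_congr rfl fun i _ => ?_
    rw [nsmul_eq_mul, Complex.exp_nat_mul]
  have := linearIndependent_iff'.1 hli p.support (fun d => p.coeff d) hz
  ext d
  rw [MvPolynomial.coeff_zero]
  by_cases hd : d ∈ p.support
  · exact this d hd
  · exact MvPolynomial.notMem_support_iff.1 hd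

/-- exponentials of rational combinations are algebraic over the exponentials -/
lemma exp_span (T : Set ℂ) (c : ℂ) (hc : c ∈ Submodule.span ℚ T) :
    IsAlgebraic (Algebra.adjoin ℚ (Complex.exp '' T)) (Complex.exp c) := by
  induction hc using Submodule.span_induction with
  | mem x hx =>
    exact isAlgebraic_algebraMap
      (⟨_, Algebra.subset_adjoin ⟨x, hx, rfl⟩⟩ : Algebra.adjoin ℚ (Complex.exp '' T))
  | zero => rw [Complex.exp_zero]; exact isAlgebraic_one
  | add x y _ _ hx hy => rw [Complex.exp_add]; exact hx.mul hy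
  | smul q x _ hx =>
    have hden : (q.den : ℂ) ≠ 0 := by exact_mod_cast q.den_ne_zero
    have h1 : Complex.exp (q • x) ^ q.den = Complex.exp x ^ q.num := by
      rw [← Complex.exp_nat_mul, ← Complex.exp_int_mul]
      congr 1
      rw [Rat.smul_def]
      have : ((q : ℚ) : ℂ) * q.den = q.num := by exact_mod_cast q.mul_den_eq_num
      rw [← this]
      ring
    refine IsAlgebraic.of_pow (n := q.den) q.den_pos ?_
    rw [h1]
    rcases Int.eq_nat_or_neg q.num with ⟨n, hn | hn⟩
    · rw [hn, zpow_natCast]
      exact hx.pow n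
    · rw [hn, zpow_neg, zpow_natCast]
      exact (hx.pow n).inv

/-- if `b` is algebraic and `exp b` is algebraic over the field generated by `exp c`, `c ∈ T`,
`T` a set of algebraic numbers, then `b` is in the rational span of `T`. -/
theorem mem_span_of_isAlgebraic (T : Set ℂ) (hT : ∀ c ∈ T, IsAlgebraic ℚ c) (b : ℂ)
    (hb : IsAlgebraic ℚ b)
    (h : IsAlgebraic (Algebra.adjoin ℚ (Complex.exp '' T)) (Complex.exp b)) :
    b ∈ Submodule.span ℚ T := by
  classical
  by_contra hbT
  obtain ⟨T₀, hsub, hspan, hli⟩ := exists_linearIndependent ℚ T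
  have hb0 : b ∉ Submodule.span ℚ T₀ := by rwa [hspan]
  have hbT₀ : b ∉ T₀ := fun h => hb0 (Submodule.subset_span h)
  have hli' : LinearIndepOn ℚ id (insert b T₀) := by
    refine LinearIndepOn.insert (v := id) hli ?_
    rwa [Set.image_id]
  have halg : AlgebraicIndepOn ℚ Complex.exp (insert b T₀) := by
    refine algebraicIndependent_exp (fun i : (insert b T₀ : Set ℂ) => (i : ℂ)) ?_ hli'
    rintro ⟨i, hi⟩
    rcases hi with rfl | hi
    · exact hb
    · exact hT i (hsub hi)
  have h1 := ((AlgebraicIndepOn.insert_iff hbT₀).1 halg).2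
  apply h1
  refine h.adjoin_of_forall_isAlgebraic ?_
  rintro x ⟨⟨c, hc, rfl⟩, _⟩
  refine exp_span T₀ c ?_
  rw [hspan]
  exact Submodule.subset_span hc

end

end Pool.Agent.H20LW
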