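import Pool.Agent.H20LW.D

namespace Pool.Agent.H20LW

open Polynomial ComplexConjugate

noncomputable section

/-- The line theorem: `a`, `b` algebraic, `exp a`, `exp b` algebraic over the field generated by
`ξ` and the `exp c`, `c ∈ B`; then a nontrivial integer combination of `a`, `b` is in `B`. -/
theorem line (ξ : ℂ) (B : Submodule ℚ ℂ) (hB : ∀ c ∈ B, IsAlgebraic ℚ c) (a b : ℂ)
    (ha : IsAlgebraic ℚ a) (hb : IsAlgebraic ℚ b)
    (hea : IsAlgebraic (Algebra.adjoin ℚ (insert ξ (Complex.exp '' (B : Set ℂ)))) (Complex.exp a))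
    (heb : IsAlgebraic (Algebra.adjoin ℚ (insert ξ (Complex.exp '' (B : Set ℂ)))) (Complex.exp b))
    (haB : a ∉ B) : ∃ q : ℚ, b - q • a ∈ B := by
  classical
  set E : Set ℂ := Complex.exp '' (B : Set ℂ) with hE
  have mem_cl : ∀ (S : Set ℂ) (z : ℂ), z ∈ (AlgebraicIndependent.matroid ℚ ℂ).closure S ↔
      IsAlgebraic (Algebra.adjoin ℚ S) z := by
    intro S z
    rw [AlgebraicIndependent.matroid_closure_eq]
    exact Iff.rfl
  have h1 : Complex.exp a ∉ (AlgebraicIndependent.matroid ℚ ℂ).closure E := by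
    rw [mem_cl]
    intro h
    apply haB
    have := mem_span_of_isAlgebraic (B : Set ℂ) hB a ha h
    rwa [Submodule.span_eq] at this
  have h2 : ξ ∈ (AlgebraicIndependent.matroid ℚ ℂ).closure (insert (Complex.exp a) E) :=
    Matroid.mem_closure_insert h1 ((mem_cl _ _).2 hea)
  have h3 : IsAlgebraic (Algebra.adjoin ℚ (insert (Complex.exp a) E)) (Complex.exp b) := by
    refine heb.adjoin_of_forall_isAlgebraic ?_
    rintro x ⟨hx, hx'⟩
    rcases hx with rfl | hx
    · exact (mem_cl _ _).1 h2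
    · exact absurd (Set.mem_insert_of_mem _ hx) hx'
  have h4 : b ∈ Submodule.span ℚ (insert a (B : Set ℂ)) := by
    refine mem_span_of_isAlgebraic _ ?_ b hb ?_
    · rintro c (rfl | hc)
      · exact ha
      · exact hB c hc
    · rwa [Set.image_insert_eq]
  rw [Submodule.mem_span_insert, Submodule.span_eq] at h4
  obtain ⟨q, z, hz, hbz⟩ := h4
  refine ⟨q, ?_⟩
  rw [hbz]
  simpa using hz

/-- complex conjugation preserves being algebraic over the ring generated by a conjugation stable set -/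
lemma conj_isAlgebraic (S : Set ℂ) (hS : ∀ s ∈ S, conj s ∈ S) (z : ℂ)
    (h : IsAlgebraic (Algebra.adjoin ℚ S) z) : IsAlgebraic (Algebra.adjoin ℚ S) (conj z) := by
  let φ : ℂ →ₐ[ℚ] ℂ := (Complex.conjAe.restrictScalars ℚ).toAlgHom
  have hφ : ∀ x : ℂ, φ x = conj x := fun x => rfl
  have hmem : ∀ x ∈ Algebra.adjoin ℚ S, φ x ∈ Algebra.adjoin ℚ S := by
    intro x hx
    have : φ x ∈ (Algebra.adjoin ℚ S).map φ := ⟨x, hx, rfl⟩
    rw [AlgHom.map_adjoin] at this
    refine Algebra.adjoin_mono ?_ this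
    rintro _ ⟨s, hs, rfl⟩
    exact hS s hs
  let σ : Algebra.adjoin ℚ S →+* Algebra.adjoin ℚ S :=
    { toFun := fun x => ⟨φ x.1, hmem x.1 x.2⟩
      map_one' := by ext; simp
      map_mul' := by intro x y; ext; simp
      map_zero' := by ext; simp
      map_add' := by intro x y; ext; simp }
  have hσ : Function.Injective σ := by
    intro x y hxy
    have : φ x.1 = φ y.1 := congrArg Subtype.val hxy
    rw [hφ, hφ] at this
    exact Subtype.ext ((starRingEnd ℂ).injective this)
  obtain ⟨p, hp0, hp⟩ := h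
  refine ⟨p.map σ, (Polynomial.map_ne_zero_iff hσ).2 hp0, ?_⟩
  have h1 : φ (aeval z p) = aeval (φ z) (p.map σ) := by
    rw [aeval_def, aeval_def, eval₂_map]
    have : φ (eval₂ (algebraMap (Algebra.adjoin ℚ S) ℂ) z p)
        = eval₂ ((φ : ℂ →+* ℂ).comp (algebraMap (Algebra.adjoin ℚ S) ℂ)) (φ z) p :=
      Polynomial.hom_eval₂ p (algebraMap (Algebra.adjoin ℚ S) ℂ) (φ : ℂ →+* ℂ) z
    rw [this]
    rfl
  rw [← hφ, ← h1, hp, map_zero]

theorem structure_theorem (ξ : ℝ) (B : Submodule ℚ ℂ) (hB : ∀ c ∈ B, IsAlgebraic ℚ c) :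
    ∃ a₀ : ℂ, ((∀ c ∈ B, conj c ∈ B) → (a₀ - conj a₀ ∈ B ∨ a₀ + conj a₀ ∈ B)) ∧
      ∀ a : ℂ, IsAlgebraic ℚ a →
        IsAlgebraic (IntermediateField.adjoin ℚ (insert (ξ : ℂ) (Complex.exp '' (B : Set ℂ))))
          (Complex.exp a) → ∃ q : ℚ, a - q • a₀ ∈ B := by
  classical
  by_cases hex : ∃ a₀ : ℂ, a₀ ∉ B ∧ IsAlgebraic ℚ a₀ ∧
      IsAlgebraic (Algebra.adjoin ℚ (insert (ξ : ℂ) (Complex.exp '' (B : Set ℂ))))
          (Complex.exp a₀)
  · obtain ⟨a₀, ha₀B, ha₀, hea₀⟩ := hex
    refine ⟨a₀, ?_, ?_⟩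
    · intro hconj
      have hc1 : IsAlgebraic ℚ (conj a₀) := by
        have := ha₀.algHom ((Complex.conjAe.restrictScalars ℚ).toAlgHom)
        exact this
      have hc2 : IsAlgebraic (Algebra.adjoin ℚ (insert (ξ : ℂ) (Complex.exp '' (B : Set ℂ))))
          (Complex.exp (conj a₀)) := by
        rw [Complex.exp_conj]
        refine conj_isAlgebraic _ ?_ _ hea₀
        rintro s (rfl | ⟨c, hc, rfl⟩)
        · rw [Complex.conj_ofReal]
          exact Set.mem_insert _ _
        · rw [← Complex.exp_conj]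
          exact Set.mem_insert_of_mem _ ⟨conj c, hconj c hc, rfl⟩
      obtain ⟨q, hq⟩ := line ξ B hB a₀ (conj a₀) ha₀ hc1 hea₀ hc2 ha₀B
      -- conj a₀ = q a₀ + c, so a₀ = q conj a₀ + conj c
      have h2 := hconj _ hq
      have h3 : conj (conj a₀ - q • a₀) = a₀ - q • conj a₀ := by
        rw [map_sub, Complex.conj_conj, Rat.smul_def, Rat.smul_def, map_mul]
        simp
      rw [h3] at h2
      have h4 : (1 - q ^ 2) • a₀ ∈ B := by
        have : (1 - q ^ 2) • a₀ = (a₀ - q • conj a₀) + q • (conj a₀ - q • a₀) := by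
          simp only [Rat.smul_def]
          push_cast
          ring
        rw [this]
        exact B.add_mem h2 (B.smul_mem q hq)
      have h5 : 1 - q ^ 2 = 0 := by
        by_contra hne
        apply ha₀B
        have := B.smul_mem (1 - q ^ 2)⁻¹ h4
        rwa [smul_smul, inv_mul_cancel₀ hne, one_smul] at this
      have h6 : (q - 1) * (q + 1) = 0 := by linarith [h5]
      rcases mul_eq_zero.1 h6 with h | h
      · left
        have hq1 : q = 1 := by linarith
        rw [hq1, one_smul] at h2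
        exact h2
      · right
        have hq1 : q = -1 := by linarith
        rw [hq1] at h2
        simpa using h2
    · intro a ha hea
      exact line ξ B hB a₀ a ha₀ ha hea₀ (IntermediateField.isAlgebraic_adjoin_iff.1 hea) ha₀B
  · refine ⟨0, fun _ => Or.inl (by simp), ?_⟩
    intro a ha hea
    refine ⟨0, ?_⟩
    by_contra hne
    apply hex
    refine ⟨a, ?_, ha, IntermediateField.isAlgebraic_adjoin_iff.1 hea⟩
    simpa using hne

end

end Pool.Agent.H20LW
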